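import Pool.Agent.Lib.MP_799fdf_al.Main

/-! # Members of `form K` are quotients of subdirect powers of `K` -/

set_option autoImplicit false

open scoped commutatorElement

namespace MP799fdf

namespace Knf

/-- PROOF. `form_induction` for this property of `S`.
`hG`: `P = K`, `J = Unit`, `φ = ψ = id`. `hsurj`: compose `ψ` with `f`.
`hsub` (`f : X → S₁`, `g : X → S₂` surjective with `f x = g x = 1 → x = 1`; `P₁ J₁ φ₁ ψ₁` for `S₁`,
`P₂ J₂ φ₂ ψ₂` for `S₂`): `P` is the subgroup of all `(a, b, x) : P₁ × P₂ × X` with `ψ₁ a = f x`,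
`ψ₂ b = g x`; `J = J₁ ⊕ J₂` with `φ (inl j) (a, b, x) = φ₁ j a`, `φ (inr j) (a, b, x) = φ₂ j b`,
`ψ (a, b, x) = x`. The projections of `P` to `P₁`, to `P₂` and to `X` are surjective, and if all
`φ j` vanish then `a = 1`, `b = 1`, so `f x = g x = 1` and `x = 1`. -/
theorem form_subdirect {K S : Type} [Group K] [Finite K] [Group S] [Finite S]
    (h : (form K).mem S) :
    ∃ (P J : Type) (_ : Group P) (_ : Finite P) (_ : Finite J) (φ : J → P →* K) (ψ : P →* S),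
      (∀ j, Function.Surjective (φ j)) ∧ (∀ x, (∀ j, φ j x = 1) → x = 1) ∧
        Function.Surjective ψ := by
  refine form_induction (G := K) (fun S _ _ =>
    ∃ (P J : Type) (_ : Group P) (_ : Finite P) (_ : Finite J) (φ : J → P →* K) (ψ : P →* S),
      (∀ j, Function.Surjective (φ j)) ∧ (∀ x, (∀ j, φ j x = 1) → x = 1) ∧
        Function.Surjective ψ) ?_ ?_ ?_ S h
  · intro A B _ _ _ _ f hf hA
    obtain ⟨P, J, iP, fP, fJ, φ, ψ, h1, h2, h3⟩ := hA
    exact ⟨P, J, iP, fP, fJ, φ, f.comp ψ, h1, h2, hf.comp h3⟩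
  · intro X S₁ S₂ _ _ _ _ _ _ f g hf hg hA hB hfg
    obtain ⟨P₁, J₁, i1, i2, i3, φ₁, ψ₁, a1, a2, a3⟩ := hA
    obtain ⟨P₂, J₂, k1, k2, k3, φ₂, ψ₂, b1, b2, b3⟩ := hB
    obtain ⟨Q, hQ⟩ : ∃ Q : Subgroup (P₁ × P₂ × X),
        ∀ u, u ∈ Q ↔ ψ₁ u.1 = f u.2.2 ∧ ψ₂ u.2.1 = g u.2.2 :=
      ⟨{ carrier := {u | ψ₁ u.1 = f u.2.2 ∧ ψ₂ u.2.1 = g u.2.2}
         mul_mem' := by
          rintro u v ⟨h1, h2⟩ ⟨h3, h4⟩
          refine ⟨?_, ?_⟩
          · change ψ₁ (u.1 * v.1) = f (u.2.2 * v.2.2)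
            rw [map_mul, map_mul, h1, h3]
          · change ψ₂ (u.2.1 * v.2.1) = g (u.2.2 * v.2.2)
            rw [map_mul, map_mul, h2, h4]
         one_mem' := by
          refine ⟨?_, ?_⟩
          · change ψ₁ 1 = f 1
            rw [map_one, map_one]
          · change ψ₂ 1 = g 1
            rw [map_one, map_one]
         inv_mem' := by
          rintro u ⟨h1, h2⟩
          refine ⟨?_, ?_⟩
          · change ψ₁ u.1⁻¹ = f u.2.2⁻¹
            rw [map_inv, map_inv, h1]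
          · change ψ₂ u.2.1⁻¹ = g u.2.2⁻¹
            rw [map_inv, map_inv, h2] }, fun u => Iff.rfl⟩
    refine ⟨Q, J₁ ⊕ J₂, inferInstance, inferInstance, inferInstance,
      Sum.elim (fun j => (φ₁ j).comp ((MonoidHom.fst P₁ (P₂ × X)).comp Q.subtype))
        (fun j => (φ₂ j).comp
          ((MonoidHom.fst P₂ X).comp ((MonoidHom.snd P₁ (P₂ × X)).comp Q.subtype))),
      (MonoidHom.snd P₂ X).comp ((MonoidHom.snd P₁ (P₂ × X)).comp Q.subtype), ?_, ?_, ?_⟩
    · rintro (j | j) k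
      · obtain ⟨a, ha⟩ := a1 j k
        obtain ⟨x, hx⟩ := hf (ψ₁ a)
        obtain ⟨b, hb⟩ := b3 (g x)
        exact ⟨⟨(a, b, x), (hQ _).2 ⟨hx.symm, hb⟩⟩, ha⟩
      · obtain ⟨b, hb⟩ := b1 j k
        obtain ⟨x, hx⟩ := hg (ψ₂ b)
        obtain ⟨a, ha⟩ := a3 (f x)
        exact ⟨⟨(a, b, x), (hQ _).2 ⟨ha, hx.symm⟩⟩, hb⟩
    · rintro ⟨⟨a, b, x⟩, hu⟩ hz
      obtain ⟨h1, h2⟩ := (hQ _).1 hu
      have ha : a = 1 := a2 a fun j => hz (Sum.inl j)
      have hb : b = 1 := b2 b fun j => hz (Sum.inr j)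
      subst ha hb
      have h3 : f x = 1 := by
        change ψ₁ 1 = f x at h1
        rw [← h1, map_one]
      have h4 : g x = 1 := by
        change ψ₂ 1 = g x at h2
        rw [← h2, map_one]
      have hx : x = 1 := hfg x h3 h4
      subst hx
      rfl
    · intro x
      obtain ⟨a, ha⟩ := a3 (f x)
      obtain ⟨b, hb⟩ := b3 (g x)
      exact ⟨⟨(a, b, x), (hQ _).2 ⟨ha, hb⟩⟩, rfl⟩
  · exact ⟨K, Unit, inferInstance, inferInstance, inferInstance, fun _ => MonoidHom.id K,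
      MonoidHom.id K, fun _ => Function.surjective_id, fun x hx => hx (), Function.surjective_id⟩

end Knf

end MP799fdf
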