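import Pool.Agent.Lib.MP_799fdf_al.Knf.KtA

/-! # Sums over values of affine functions -/

set_option autoImplicit false

open scoped commutatorElement

namespace MP799fdf

namespace Knf

open Inn

variable {G : Type} [Group G] [Finite G] {A B : Subgroup G} [A.Normal] {hB : B.Normal}
  {hBA : ⁅B, B⁆ ≤ A} {p n : ℕ} {I : Type} [Finite I]

theorem exists_period [Fact p.Prime] (hlt : A.relIndex B ^ Nat.card I < p ^ n)
    (x : I → (Fin n → ZMod p) → G) (hx : ∀ i, x i ∈ Kt A B hB hBA (Fin n → ZMod p)) :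
    ∃ u : Fin n → ZMod p, u ≠ 0 ∧ ∀ i v, ((x i (v + u) : G) : G ⧸ A) = ((x i v : G) : G ⧸ A) := by
  classical
  have hk : ∀ i, (∀ v, ((x i 0 : G) : G ⧸ A)⁻¹ * (x i v : G ⧸ A) ∈ B.map (QuotientGroup.mk' A)) ∧
      ∀ v w, ((x i (v + w) : G) : G ⧸ A) =
        (x i v : G ⧸ A) * ((x i 0 : G) : G ⧸ A)⁻¹ * (x i w : G ⧸ A) := fun i => mem_kt.1 (hx i)
  have hcard : Nat.card (B.map (QuotientGroup.mk' A)) = A.relIndex B := by
    rw [← Subgroup.relIndex_ker, QuotientGroup.ker_mk']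
  have hninj : ¬ Function.Injective (fun (t : Fin n → ZMod p) (i : I) =>
      (⟨((x i 0 : G) : G ⧸ A)⁻¹ * (x i t : G ⧸ A), (hk i).1 t⟩ : B.map (QuotientGroup.mk' A))) := by
    intro hinj
    have h1 := Nat.card_le_card_of_injective _ hinj
    rw [Nat.card_fun, Nat.card_fun, hcard, Nat.card_zmod, Nat.card_fin] at h1
    exact absurd hlt (not_lt.2 h1)
  rw [Function.not_injective_iff] at hninj
  obtain ⟨s, t, hst, hne⟩ := hninj
  refine ⟨t - s, sub_ne_zero.2 (Ne.symm hne), fun i v => ?_⟩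
  have h2 : ((x i 0 : G) : G ⧸ A)⁻¹ * (x i s : G ⧸ A) =
      ((x i 0 : G) : G ⧸ A)⁻¹ * (x i t : G ⧸ A) := congrArg Subtype.val (congrFun hst i)
  have h3 : (x i s : G ⧸ A) = (x i t : G ⧸ A) := mul_left_cancel h2
  have h4 := (hk i).2 s (t - s)
  rw [add_sub_cancel, ← h3, mul_assoc] at h4
  have h5 : ((x i 0 : G) : G ⧸ A)⁻¹ * (x i (t - s) : G ⧸ A) = 1 := (mul_eq_left.1 h4.symm)
  rw [(hk i).2 v (t - s), mul_assoc, h5, mul_one]

theorem sum_periodic [Fact p.Prime] (f : (Fin n → ZMod p) → ZMod p) (u : Fin n → ZMod p)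
    (hu : u ≠ 0) (hf : ∀ v, f (v + u) = f v) : ∑ v, f v = 0 := by
  obtain ⟨i, hi⟩ : ∃ i, u i ≠ 0 := by
    by_contra h
    push Not at h
    exact hu (funext h)
  have h1 : ∀ v, f v = (v + u) i / u i * f (v + u) - v i / u i * f v := by
    intro v
    rw [hf, Pi.add_apply, add_div, div_self hi]
    ring
  calc ∑ v, f v = ∑ v, ((v + u) i / u i * f (v + u)) - ∑ v, (v i / u i * f v) := by
        rw [← Finset.sum_sub_distrib]
        exact Finset.sum_congr rfl fun v _ => h1 v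
    _ = 0 := by
        rw [sub_eq_zero]
        exact Equiv.sum_comp (Equiv.addRight u) (fun v => v i / u i * f v)

theorem sum_kt [Fact p.Prime] (hlt : A.relIndex B ^ Nat.card I < p ^ n)
    (x : I → (Fin n → ZMod p) → G) (hx : ∀ i, x i ∈ Kt A B hB hBA (Fin n → ZMod p))
    (Φ : (I → G ⧸ A) → ZMod p) : ∑ v, (Φ fun i => ((x i v : G) : G ⧸ A)) = 0 := by
  obtain ⟨u, hu, hper⟩ := exists_period hlt x hx
  refine sum_periodic _ u hu fun v => ?_
  exact congrArg Φ (funext fun i => hper i v)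

end Knf

end MP799fdf
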