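import Pool.Agent.Lib.MP_799fdf_al.Knf.KtA

/-! # Powers of an element; a sequence -/

set_option autoImplicit false

namespace MP799fdf

namespace Knf

theorem pow_mem_iff {G : Type} [Group G] {A : Subgroup G} {p : ℕ} [Fact p.Prime] {b : G}
    (hbA : b ∉ A) (hbp : b ^ p ∈ A) (x : ZMod p) : b ^ x.val ∈ A ↔ x = 0 := by
  have hp : p.Prime := Fact.out
  have : NeZero p := ⟨hp.ne_zero⟩
  constructor
  · intro h2
    by_contra hx
    have hx0 : x.val ≠ 0 := fun h => hx ((ZMod.val_eq_zero x).1 h)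
    have hlt := ZMod.val_lt x
    have hcop : Nat.Coprime x.val p := ((hp.coprime_iff_not_dvd).2 fun h =>
      absurd (Nat.le_of_dvd (Nat.pos_of_ne_zero hx0) h) (not_le_of_gt hlt)).symm
    have h3 := Nat.gcd_eq_gcd_ab x.val p
    rw [hcop.gcd_eq_one] at h3
    have h4 : b = (b ^ x.val) ^ (Nat.gcdA x.val p) * (b ^ p) ^ (Nat.gcdB x.val p) := by
      rw [← zpow_natCast, ← zpow_natCast, ← zpow_mul, ← zpow_mul, ← zpow_add, ← h3,
        Nat.cast_one, zpow_one]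
    refine hbA ?_
    rw [h4]
    exact A.mul_mem (A.zpow_mem h2 _) (A.zpow_mem hbp _)
  · rintro rfl
    rw [ZMod.val_zero, pow_zero]
    exact A.one_mem

theorem exists_seq (c M p : ℕ) (hp : 2 ≤ p) :
    ∃ f : ℕ → ℕ, ∀ k l, k < l → c ^ (M + f k) < p ^ f l := by
  obtain ⟨f, hf⟩ : ∃ f : ℕ → ℕ, ∀ k, f (k + 1) = c ^ (M + f k) + f k :=
    ⟨fun k => Nat.rec 0 (fun _ x => c ^ (M + x) + x) k, fun k => rfl⟩
  have hm : Monotone f := monotone_nat_of_le_succ fun k => by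
    rw [hf]
    exact Nat.le_add_left _ _
  refine ⟨f, fun k l hkl => ?_⟩
  have h1 : c ^ (M + f k) ≤ f (k + 1) := by
    rw [hf]
    exact Nat.le_add_right _ _
  calc c ^ (M + f k) < 2 ^ (c ^ (M + f k)) := Nat.lt_two_pow_self
    _ ≤ p ^ (c ^ (M + f k)) := Nat.pow_le_pow_left hp _
    _ ≤ p ^ f l := Nat.pow_le_pow_right (by omega) (h1.trans (hm hkl))

end Knf

end MP799fdf
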