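import Pool.Agent.Lib.MP_799fdf_al.Knf.MainB

/-! # The main argument, part 3 -/

set_option autoImplicit false

open scoped commutatorElement

namespace MP799fdf

namespace Knf

open Inn

variable {G : Type} [Group G] {p : ℕ} {R H Z A B : Subgroup G} [Z.Normal] {h : G}
variable {V K V' K' P J : Type} [Group K] [Group K'] [Group P]

theorem main_aux [Finite P] [Finite G] [Finite K] [Finite K'] [Fintype V] [Nonempty V]
    [Fintype V'] [Nonempty V'] (S : Setup G p R H Z A B h)
    (C : Comp G R H Z h V K) (C' : Comp G R H Z h V' K') (φ : J → P →* K)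
    (hφ : ∀ j, Function.Surjective (φ j)) (hφi : ∀ x, (∀ j, φ j x = 1) → x = 1) (ψ : P →* K')
    (hψ : Function.Surjective ψ) {I : Type} (Φ : (I → G ⧸ Z) → ZMod p) (hΦ : Equi R h Φ)
    (hC : ∀ y : I → K, ∑ v : V, (Φ fun i => C.π v (y i)) = 0) (y : I → K') :
    ∑ v' : V', (Φ fun i => C'.π v' (y i)) = 0 := by
  classical
  choose y' hy' using fun i => hψ (y i)
  let r : R := ⟨h, S.loc.lt.le S.hH⟩
  have hr : (r : G) = h := rfl
  have hfin : Finite (LL P (H.relIndex R)) := by
    unfold LL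
    infer_instance
  have := Fintype.ofFinite (LL P (H.relIndex R))
  have hmark : ∀ L : LL P (H.relIndex R), ∃ e : P,
      (∀ j v, L.1.map (φ j) = (C.ι v).range →
        φ j e = C.ι v (r ^ (Φ fun i => C.π v (φ j (y' i))).val)) ∧
      (∀ j, L.1 ≤ (φ j).ker → φ j e = 1) ∧
      (∀ v', L.1.map ψ = (C'.ι v').range →
        ψ e = C'.ι v' (r ^ (Φ fun i => C'.π v' (ψ (y' i))).val)) ∧
      (L.1 ≤ ψ.ker → ψ e = 1) := by
    rintro ⟨L, N, hL, hi⟩
    exact exists_mark S C C' φ hφ hφi ψ hψ Φ hΦ y' hL hi r hr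
  choose e he using hmark
  have h1 : (Finset.univ.toList.map e).prod = 1 := by
    refine hφi _ fun j => ?_
    exact (prod_marks S C (φ j) (hφ j) Φ y' r hr e (fun L v => (he L).1 j v)
      fun L => (he L).2.1 j).2 (hC fun i => φ j (y' i))
  have h2 := (prod_marks S C' ψ hψ Φ y' r hr e (fun L v' => (he L).2.2.1 v')
    fun L => (he L).2.2.2).1 (by rw [h1, map_one])
  have h3 : (fun i => ψ (y' i)) = y := funext hy'
  simpa only [hy'] using h2

end Knf

end MP799fdf
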