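import Pool.Agent.Lib.MP_799fdf_al.Knf.Quo
import Pool.Agent.Lib.MP_799fdf_al.Knf.KtB
import Pool.Agent.Lib.MP_799fdf_al.Knf.KtC
import Pool.Agent.Lib.MP_799fdf_al.Knf.Wt
import Pool.Agent.Lib.MP_799fdf_al.Knf.FormS
import Pool.Agent.Lib.MP_799fdf_al.Knf.MainC

/-! # Infinitely many subformations -/

set_option autoImplicit false

open scoped commutatorElement

namespace MP799fdf

namespace Knf

open Inn

section

variable {G : Type} [Group G] [Finite G] {p : ℕ} {R H Z A B : Subgroup G} [Z.Normal] {h : G}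

/-- The groups `K`. -/
theorem exists_comp (S : Setup G p R H Z A B h) [Fact p.Prime] (n : ℕ) :
    ∃ (K : Type) (_ : Group K) (_ : Finite K) (C : Comp G R H Z h (Fin n → ZMod p) K),
      (form G).mem K ∧
      (∀ (m : ℕ) (Φ : ((G ⧸ A) ⊕ Fin m → G ⧸ Z) → ZMod p)
        (Φ' : ((G ⧸ A) ⊕ Fin m → G ⧸ A) → ZMod p),
        (∀ g : (G ⧸ A) ⊕ Fin m → G, Φ (fun i => (g i : G ⧸ Z)) = Φ' fun i => (g i : G ⧸ A)) →
        A.relIndex B ^ (Nat.card (G ⧸ A) + m) < p ^ n → ∀ y : (G ⧸ A) ⊕ Fin m → K,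
          ∑ v, (Φ fun i => C.π v (y i)) = 0) ∧
      ∀ Φ : ((G ⧸ A) ⊕ Fin n → G ⧸ Z) → ZMod p,
        (∀ g : (G ⧸ A) ⊕ Fin n → G, (∀ x, (g (Sum.inl x) : G ⧸ A) = x) →
          (∀ i, g (Sum.inr i) ∈ A) → Φ (fun i => (g i : G ⧸ Z)) = 1) →
        (∀ g : (G ⧸ A) ⊕ Fin n → G, (∀ x, (g (Sum.inl x) : G ⧸ A) = x) →
          (∃ i, g (Sum.inr i) ∉ A) → Φ (fun i => (g i : G ⧸ Z)) = 0) →
        ∃ y : (G ⧸ A) ⊕ Fin n → K, ∑ v, (Φ fun i => C.π v (y i)) ≠ 0 := by
  classical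
  have hA := S.nA
  obtain ⟨K, iK, fK, q, hq, hk⟩ := exists_quot S (Fin n → ZMod p)
  obtain ⟨C, hC⟩ := exists_comp_of S q hq hk
  refine ⟨K, iK, fK, C, form_mem_of S q hq, fun m Φ Φ' hΦ hlt y => ?_, fun Φ h1 h0 => ?_⟩
  · choose x hx using fun i => hq (y i)
    have h1 : ∀ v, (Φ fun i => C.π v (y i)) =
        Φ' fun i => ((((x i : Kt A B S.nB S.BA (Fin n → ZMod p)) : (Fin n → ZMod p) → G) v : G) :
          G ⧸ A) := by
      intro v
      rw [← hΦ]
      congr 1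
      funext i
      rw [← hC, hx]
    rw [Finset.sum_congr rfl fun v _ => h1 v]
    refine sum_kt (hB := S.nB) (hBA := S.BA) ?_
      (fun i => ((x i : Kt A B S.nB S.BA (Fin n → ZMod p)) : (Fin n → ZMod p) → G))
      (fun i => (x i).2) Φ'
    rw [Nat.card_sum, Nat.card_fin]
    exact hlt
  · obtain ⟨b, hb, hbA⟩ := Set.exists_of_ssubset (show (A : Set G) ⊂ B from S.AB)
    have hb1 : b ∈ B := hb
    have hbA1 : b ∉ A := hbA
    let x : (G ⧸ A) ⊕ Fin n → Kt A B S.nB S.BA (Fin n → ZMod p) :=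
      Sum.elim (fun a => ⟨fun _ => a.out, kt_const _⟩)
        fun i => ⟨fun v => b ^ (v i).val, kt_pow hb1 (S.Bp b hb1) i⟩
    refine ⟨fun i => q (x i), ?_⟩
    have h2 : ∀ v : Fin n → ZMod p, (Φ fun i => C.π v (q (x i))) = if v = 0 then 1 else 0 := by
      intro v
      have h3 : (fun i => C.π v (q (x i))) = fun i => ((((x i : Kt A B S.nB S.BA
          (Fin n → ZMod p)) : (Fin n → ZMod p) → G) v : G) : G ⧸ Z) := by
        funext i
        rw [hC]
      rw [h3]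
      have h4 : ∀ a : G ⧸ A, (((x (Sum.inl a) : Kt A B S.nB S.BA
          (Fin n → ZMod p)) : (Fin n → ZMod p) → G) v : G ⧸ A) = a := fun a =>
        Quotient.out_eq a
      by_cases hv : v = 0
      · rw [if_pos hv]
        refine h1 _ h4 fun i => ?_
        exact (pow_mem_iff hbA1 (S.Bp b hb1) (v i)).2 (congrFun hv i)
      · rw [if_neg hv]
        refine h0 _ h4 ?_
        by_contra h5
        push Not at h5
        refine hv (funext fun i => ?_)
        exact (pow_mem_iff hbA1 (S.Bp b hb1) (v i)).1 (h5 i)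
    rw [Finset.sum_congr rfl fun v _ => h2 v, Finset.sum_ite_eq' Finset.univ (0 : Fin n → ZMod p),
      if_pos (Finset.mem_univ _)]
    exact one_ne_zero

theorem main_inf (S : Setup G p R H Z A B h) {E : Type} [Group E] [Finite E] (π : E →* G)
    (hπ : Function.Surjective π) : {F : Formation | F.IsSub (form E)}.Infinite := by
  classical
  have hp : Fact p.Prime := ⟨S.hp⟩
  obtain ⟨f, hf⟩ := exists_seq (A.relIndex B) (Nat.card (G ⧸ A)) p S.hp.two_le
  choose K iK fK C hKm hK1 hK2 using fun n => exists_comp S n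
  have hmem : ∀ n, (form (K n)).IsSub (form E) := fun n => form_le (form E)
    (form_le (form E) ((form E).of_surj π hπ (mem_form E)) (K n) (hKm n))
  refine Set.infinite_of_injective_forall_mem (α := ℕ)
    (f := fun k => form (K (f k))) ?_ fun k => hmem _
  have key : ∀ k l, k < l → form (K (f k)) ≠ form (K (f l)) := by
    intro k l hkl e
    have h1 : (form (K (f l))).mem (K (f k)) := by
      rw [← e]
      exact mem_form _
    obtain ⟨P, J, iP, fP, fJ, φ, ψ, hφ, hφi, hψ⟩ := form_subdirect h1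
    obtain ⟨Φ, Φ', hΦ, hΦ', hΦ1, hΦ0⟩ := exists_wt S (f k)
    obtain ⟨y, hy⟩ := hK2 (f k) Φ hΦ1 hΦ0
    exact hy (main_aux S (C (f l)) (C (f k)) φ hφ hφi ψ hψ Φ hΦ
      (hK1 (f l) (f k) Φ Φ' hΦ' (hf k l hkl)) y)
  intro k l e
  by_contra hne
  rcases lt_or_gt_of_ne hne with h | h
  · exact key k l h e
  · exact key l k h e.symm

end

end Knf

end MP799fdf
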