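import Pool.Agent.Lib.MP_799fdf_al.Knf.Defs
import Pool.Agent.Lib.MP_799fdf_al.Inf.CharS

/-! # From an abelian section to `Setup` -/

set_option autoImplicit false

open scoped commutatorElement

namespace MP799fdf

namespace Knf

open Inn

theorem exists_elem {G : Type} [Group G] [Finite G] {p : ℕ} (hp : p.Prime) (A B : Subgroup G)
    (hA : A.Normal) (hB : B.Normal) (hAB : A < B) (hBA : ⁅B, B⁆ ≤ A) (hd : p ∣ A.relIndex B) :
    ∃ B₁ : Subgroup G, B₁.Normal ∧ A < B₁ ∧ B₁ ≤ B ∧ ⁅B₁, B₁⁆ ≤ A ∧ ∀ b ∈ B₁, b ^ p ∈ A := by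
  have hpf : Fact p.Prime := ⟨hp⟩
  have hcomm : ∀ x ∈ B, ∀ y ∈ B, Commute (x : G ⧸ A) (y : G ⧸ A) := by
    intro x hx y hy
    have h1 : ⁅x, y⁆ ∈ A := hBA (Subgroup.commutator_mem_commutator hx hy)
    have h2 : ((⁅x, y⁆ : G) : G ⧸ A) = 1 := (QuotientGroup.eq_one_iff _).2 h1
    have h3 : ⁅(x : G ⧸ A), (y : G ⧸ A)⁆ = 1 := by
      rw [← h2]
      exact (map_commutatorElement (QuotientGroup.mk' A) x y).symm
    exact commutatorElement_eq_one_iff_commute.1 h3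
  let B₁ : Subgroup G :=
    { carrier := {b | b ∈ B ∧ b ^ p ∈ A}
      one_mem' := ⟨B.one_mem, by rw [one_pow]; exact A.one_mem⟩
      mul_mem' := by
        rintro x y ⟨hx, hxp⟩ ⟨hy, hyp⟩
        refine ⟨B.mul_mem hx hy, ?_⟩
        rw [← QuotientGroup.eq_one_iff] at hxp hyp ⊢
        have h1 : (((x * y) ^ p : G) : G ⧸ A) = ((x : G ⧸ A) * (y : G ⧸ A)) ^ p := rfl
        have h2 : ((x ^ p : G) : G ⧸ A) = (x : G ⧸ A) ^ p := rfl
        have h3 : ((y ^ p : G) : G ⧸ A) = (y : G ⧸ A) ^ p := rfl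
        rw [h1, (hcomm x hx y hy).mul_pow, ← h2, ← h3, hxp, hyp, one_mul]
      inv_mem' := by
        rintro x ⟨hx, hxp⟩
        refine ⟨B.inv_mem hx, ?_⟩
        rw [inv_pow]
        exact A.inv_mem hxp }
  have hmem : ∀ b, b ∈ B₁ ↔ b ∈ B ∧ b ^ p ∈ A := fun b => Iff.rfl
  have hle : B₁ ≤ B := fun b hb => ((hmem b).1 hb).1
  refine ⟨B₁, ⟨?_⟩, ?_, hle, (Subgroup.commutator_mono hle hle).trans hBA,
    fun b hb => ((hmem b).1 hb).2⟩
  · intro b hb g
    obtain ⟨h1, h2⟩ := (hmem b).1 hb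
    refine (hmem _).2 ⟨hB.conj_mem b h1 g, ?_⟩
    rw [conj_pow]
    exact hA.conj_mem _ h2 g
  · refine lt_of_le_of_ne (fun a ha => (hmem a).2 ⟨hAB.le ha, A.pow_mem ha p⟩) fun e => ?_
    have hcard : Nat.card (B.map (QuotientGroup.mk' A)) = A.relIndex B := by
      rw [← Subgroup.relIndex_ker, QuotientGroup.ker_mk']
    have hfin : Finite (G ⧸ A) := Finite.of_surjective _ (QuotientGroup.mk'_surjective A)
    have hfin2 : Finite (B.map (QuotientGroup.mk' A)) := inferInstance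
    rw [← hcard] at hd
    obtain ⟨y, hy⟩ := exists_prime_orderOf_dvd_card' p hd
    obtain ⟨b, hb, hby⟩ := Subgroup.mem_map.1 y.2
    have h1 : b ^ p ∈ A := by
      rw [← QuotientGroup.eq_one_iff]
      have h2 : ((b ^ p : G) : G ⧸ A) = (QuotientGroup.mk' A b) ^ p := rfl
      rw [h2, hby, ← Subgroup.coe_pow, ← hy, pow_orderOf_eq_one, Subgroup.coe_one]
    have h2 : b ∈ A := by
      rw [e]
      exact (hmem b).2 ⟨hb, h1⟩
    have h3 : y = 1 := by
      apply Subtype.ext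
      rw [← hby]
      exact (QuotientGroup.eq_one_iff b).2 h2
    rw [h3, orderOf_one] at hy
    exact hp.one_lt.ne hy

theorem exists_setup {G : Type} [Group G] [Finite G] {p : ℕ} (hp : p.Prime)
    (R H Z A₀ B₀ : Subgroup G) [Z.Normal] (hloc : Loc R H) (hHZ : H ≤ Z)
    (hcen : ∀ g : G, g ∈ Z ↔ ∀ r ∈ R, g * r = r * g)
    (huniq : ∀ L N : Subgroup G, Loc L N → N.relIndex L = H.relIndex R → L = R)
    (hA₀ : A₀.Normal) (hB₀ : B₀.Normal) (hRA : R ≤ A₀) (hZA : Z ≤ A₀) (hAB : A₀ < B₀)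
    (hBA : ⁅B₀, B₀⁆ ≤ A₀) (hd : p ∣ A₀.relIndex B₀) (h : G) (hH : h ∈ H) (h1 : h ≠ 1)
    (hhp : h ^ p = 1)
    (hnt : ∀ σ : (G ⧸ Z) ≃* (G ⧸ Z), ∃ τ : R ≃* R,
      (∀ r : R, (((τ r : R) : G) : G ⧸ Z) = σ ((r : G) : G ⧸ Z)) ∧
        ∀ r : R, (r : G) = h → ((τ r : R) : G) ∈ Subgroup.zpowers h)
    (hnt2 : ((∀ (σ : (G ⧸ Z) ≃* (G ⧸ Z)) (x y : G), σ (x : G ⧸ Z) = (y : G ⧸ Z) →
          x ∈ A₀ → y ∈ A₀) ∧
        ∀ σ : (G ⧸ Z) ≃* (G ⧸ Z), (∀ x y : G, σ (x : G ⧸ Z) = (y : G ⧸ Z) → x⁻¹ * y ∈ A₀) →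
          ∀ τ : R ≃* R, (∀ r : R, (((τ r : R) : G) : G ⧸ Z) = σ ((r : G) : G ⧸ Z)) →
            ∀ r : R, (r : G) = h → ((τ r : R) : G) = h) ∨
      ∀ (σ : (G ⧸ Z) ≃* (G ⧸ Z)) (τ : R ≃* R),
        (∀ r : R, (((τ r : R) : G) : G ⧸ Z) = σ ((r : G) : G ⧸ Z)) →
          ∀ r : R, (r : G) = h → ((τ r : R) : G) = h) :
    ∃ A B : Subgroup G, Setup G p R H Z A B h := by
  obtain ⟨B₁, hB₁, hAB₁, -, hBA₁, hBp₁⟩ := exists_elem hp A₀ B₀ hA₀ hB₀ hAB hBA hd
  rcases hnt2 with ⟨hc, hf⟩ | hf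
  · exact ⟨A₀, B₁,
      { hp := hp
        loc := hloc
        cen := hcen
        HZ := hHZ
        uniq := huniq
        nA := hA₀
        nB := hB₁
        RA := hRA
        ZA := hZA
        AB := hAB₁
        BA := hBA₁
        Bp := hBp₁
        charA := hc
        hH := hH
        h1 := h1
        hhp := hhp
        nt1 := hnt
        nt2 := hf }⟩
  · have hsurj : Function.Surjective (QuotientGroup.mk' Z) := QuotientGroup.mk'_surjective Z
    have hfin : Finite (G ⧸ Z) := Finite.of_surjective _ hsurj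
    have hkerA : (QuotientGroup.mk' Z).ker ≤ A₀ := by
      rw [QuotientGroup.ker_mk']
      exact hZA
    have hR₀ : (R.map (QuotientGroup.mk' Z)).Characteristic := by
      rw [Subgroup.characteristic_iff_map_le]
      intro σ y hy
      obtain ⟨x, hx, rfl⟩ := Subgroup.mem_map.1 hy
      obtain ⟨r, hr, rfl⟩ := Subgroup.mem_map.1 hx
      obtain ⟨τ, hτ, -⟩ := hnt σ
      refine Subgroup.mem_map.2 ⟨((τ ⟨r, hr⟩ : R) : G), (τ ⟨r, hr⟩).2, ?_⟩
      exact hτ ⟨r, hr⟩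
    have hlt : A₀.map (QuotientGroup.mk' Z) < B₁.map (QuotientGroup.mk' Z) := by
      refine lt_of_le_of_ne (Subgroup.map_mono hAB₁.le) fun e => ?_
      refine absurd hAB₁ (not_lt_of_ge ?_)
      have h5 : B₁ ≤ (A₀.map (QuotientGroup.mk' Z)).comap (QuotientGroup.mk' Z) := by
        rw [← Subgroup.map_le_iff_le_comap, e]
      rwa [Subgroup.comap_map_eq_self hkerA] at h5
    have hcom : ⁅B₁.map (QuotientGroup.mk' Z), B₁.map (QuotientGroup.mk' Z)⁆ ≤
        A₀.map (QuotientGroup.mk' Z) := by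
      rw [← Subgroup.map_commutator]
      exact Subgroup.map_mono hBA₁
    have hpow : ∀ b ∈ B₁.map (QuotientGroup.mk' Z), b ^ p ∈ A₀.map (QuotientGroup.mk' Z) := by
      intro b hb
      obtain ⟨x, hx, rfl⟩ := Subgroup.mem_map.1 hb
      rw [← map_pow]
      exact Subgroup.mem_map_of_mem _ (hBp₁ x hx)
    obtain ⟨A', B', hA', hB', hRA', hAB', hBA', hBp'⟩ := Inf.exists_char p
      (R.map (QuotientGroup.mk' Z)) hR₀ (A₀.map (QuotientGroup.mk' Z))
      (B₁.map (QuotientGroup.mk' Z)) (hA₀.map _ hsurj) (hB₁.map _ hsurj)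
      (Subgroup.map_mono hRA) hlt hcom hpow
    refine ⟨A'.comap (QuotientGroup.mk' Z), B'.comap (QuotientGroup.mk' Z), ?_⟩
    refine
      { hp := hp
        loc := hloc
        cen := hcen
        HZ := hHZ
        uniq := huniq
        nA := (Subgroup.normal_of_characteristic A').comap _
        nB := (Subgroup.normal_of_characteristic B').comap _
        RA := Subgroup.map_le_iff_le_comap.1 hRA'
        ZA := ?_
        AB := (Subgroup.comap_lt_comap_of_surjective hsurj).2 hAB'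
        BA := ?_
        Bp := ?_
        charA := ?_
        hH := hH
        h1 := h1
        hhp := hhp
        nt1 := hnt
        nt2 := fun σ _ τ hτ r hr => hf σ τ hτ r hr }
    · intro z hz
      rw [Subgroup.mem_comap]
      have h2 : (QuotientGroup.mk' Z) z = 1 := (QuotientGroup.eq_one_iff z).2 hz
      rw [h2]
      exact A'.one_mem
    · rw [Subgroup.commutator_le]
      intro x hx y hy
      rw [Subgroup.mem_comap, map_commutatorElement]
      exact hBA' (Subgroup.commutator_mem_commutator hx hy)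
    · intro b hb
      rw [Subgroup.mem_comap, map_pow]
      exact hBp' _ hb
    · intro σ x y hxy h7
      rw [Subgroup.mem_comap] at h7 ⊢
      have h5 := hA'.fixed σ
      have h6 : (QuotientGroup.mk' Z) y = σ ((QuotientGroup.mk' Z) x) := hxy.symm
      rw [h6]
      rw [← h5] at h7
      exact h7

end Knf

end MP799fdf
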