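import Pool.Agent.Lib.MP_799fdf_al.Knf.BasA

/-! # Basic facts about `Setup`, part 2 -/

set_option autoImplicit false

open scoped commutatorElement

namespace MP799fdf

namespace Knf

open Inn

section

variable {G : Type} [Group G] {p : ℕ} {R H Z A B : Subgroup G} [Z.Normal] {h : G}

/-- An inner automorphism lifts to conjugation: if `τ` lifts `MulAut.conj (g : G ⧸ Z)` then `τ r = g r g⁻¹`.

PROOF. `r ↦ g * r * g⁻¹` (`MulAut.conjNormal g : R ≃* R`) and `τ` agree modulo `H`, so they are equal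
(`perf_hom`, `perf_top`). -/
theorem Setup.lift_conj (S : Setup G p R H Z A B h) (g : G) (τ : R ≃* R)
    (hτ : ∀ r : R, (((τ r : R) : G) : G ⧸ Z) = MulAut.conj (g : G ⧸ Z) ((r : G) : G ⧸ Z)) (r : R) :
    ((τ r : R) : G) = g * r * g⁻¹ := by
  have := S.loc.nR
  have h1 : τ.toMonoidHom = (MulAut.conjNormal g : R ≃* R).toMonoidHom := by
    refine S.perf_hom (perf_top S.loc.perf) _ _ fun l => ?_
    have h2 : (((MulAut.conjNormal g : R ≃* R) l : R) : G) = g * l * g⁻¹ :=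
      MulAut.conjNormal_apply g l
    change (((τ l : R) : G) : G ⧸ Z) = ((((MulAut.conjNormal g : R ≃* R) l : R) : G) : G ⧸ Z)
    rw [hτ, h2]
    rfl
  have h3 : τ r = (MulAut.conjNormal g : R ≃* R) r := DFunLike.congr_fun h1 r
  rw [h3]
  exact MulAut.conjNormal_apply g r

/-- PROOF. `S.nt1` for `MulAut.conj (g : G ⧸ Z)` and `lift_conj`. -/
theorem Setup.conj_h (S : Setup G p R H Z A B h) (g : G) : g * h * g⁻¹ ∈ Subgroup.zpowers h := by
  obtain ⟨τ, h1, h2⟩ := S.nt1 (MulAut.conj (g : G ⧸ Z))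
  have h3 := h2 ⟨h, S.loc.lt.le S.hH⟩ rfl
  rw [S.lift_conj g τ h1] at h3
  exact h3

/-- `B` centralises `h`.

PROOF. For `a ∈ A` the automorphism `MulAut.conj (a : G ⧸ Z)` satisfies the condition of `S.nt2`
(`x⁻¹ * (a * x * a⁻¹) ∈ A`, `A` normal, `H ≤ R ≤ A`), so `a * h * a⁻¹ = h` (`S.nt1`, `lift_conj`). For `b ∈ B` we have
`b * h * b⁻¹ = h ^ k` (`conj_h`), so `b ^ p * h * (b ^ p)⁻¹ = h ^ (k ^ p)`; as `b ^ p ∈ A` this is `h`, so
`k ^ p = 1` modulo `p` (`orderOf h = p`), `k = k ^ p = 1` modulo `p` (`ZMod.pow_card`), and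
`b * h * b⁻¹ = h`. -/
theorem Setup.B_central (S : Setup G p R H Z A B h) (b : G) (hb : b ∈ B) : b * h = h * b := by
  have : Fact p.Prime := ⟨S.hp⟩
  have hA : ∀ a ∈ A, a * h * a⁻¹ = h := by
    intro a ha
    obtain ⟨τ, h1, -⟩ := S.nt1 (MulAut.conj (a : G ⧸ Z))
    have h2 := S.nt2 (MulAut.conj (a : G ⧸ Z)) (fun x y hxy => by
      have h3 : ((a * x * a⁻¹ : G) : G ⧸ Z) = (y : G ⧸ Z) := hxy
      have h4 : (a * x * a⁻¹)⁻¹ * y ∈ A := S.ZA (QuotientGroup.eq.1 h3)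
      have h5 : x⁻¹ * a * x⁻¹⁻¹ ∈ A := S.nA.conj_mem a ha x⁻¹
      have h6 := A.mul_mem (A.mul_mem h5 (A.inv_mem ha)) h4
      have h7 : x⁻¹ * a * x⁻¹⁻¹ * a⁻¹ * ((a * x * a⁻¹)⁻¹ * y) = x⁻¹ * y := by group
      rwa [h7] at h6) τ h1 ⟨h, S.loc.lt.le S.hH⟩ rfl
    rw [S.lift_conj a τ h1] at h2
    exact h2
  obtain ⟨k, hk⟩ := Subgroup.mem_zpowers_iff.1 (S.conj_h b)
  have hpow : ∀ j : ℕ, b ^ j * h * (b ^ j)⁻¹ = h ^ (k ^ j) := by
    intro j
    induction j with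
    | zero => simp
    | succ j ih =>
      have h1 : b ^ (j + 1) * h * (b ^ (j + 1))⁻¹ = b * (b ^ j * h * (b ^ j)⁻¹) * b⁻¹ := by
        rw [pow_succ']
        group
      rw [h1, ih, ← conj_zpow, ← hk, ← zpow_mul, pow_succ']
  have ho : orderOf h = p := orderOf_eq_prime S.hhp S.h1
  have h1 : h ^ (k ^ p) = h ^ (1 : ℤ) := by
    rw [← hpow p, hA _ (S.Bp b hb), zpow_one]
  rw [zpow_eq_zpow_iff_modEq, ho, ← ZMod.intCast_eq_intCast_iff, Int.cast_pow, ZMod.pow_card,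
    ZMod.intCast_eq_intCast_iff, ← ho, ← zpow_eq_zpow_iff_modEq, hk, zpow_one] at h1
  exact mul_inv_eq_iff_eq_mul.1 h1

/-- The image of `R` is the only local subgroup of `G / Z` with a chief factor of order `|R / H|`. -/
theorem Setup.only [Finite G] (S : Setup G p R H Z A B h) {L N : Subgroup (G ⧸ Z)} (hL : Loc L N)
    (hi : N.relIndex L = H.relIndex R) : L = R.map (QuotientGroup.mk' Z) := by
  obtain ⟨R', N', hL', hm, hN⟩ := loc_lift (QuotientGroup.mk' Z) (QuotientGroup.mk'_surjective Z) hL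
  have h1 : N'.relIndex R' = H.relIndex R := by
    rw [hN, relIndex_lift _ hm, hi]
  rw [← hm, S.uniq R' N' hL' h1]

end

end Knf

end MP799fdf
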