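import Pool.Agent.Lib.MP_799fdf_al.Knf.Defs

/-! # Affine functions with values in a group -/

set_option autoImplicit false

open scoped commutatorElement

namespace MP799fdf

namespace Knf

open Inn

/-- The functions `x : V → Γ` with `x v ∈ x 0 * W` and `x (v + w) = x v * (x 0)⁻¹ * x w`. -/
def Aff {Γ : Type} [Group Γ] (W : Subgroup Γ) (hW : W.Normal)
    (hc : ∀ x ∈ W, ∀ y ∈ W, x * y = y * x) (V : Type) [AddCommGroup V] : Subgroup (V → Γ) where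
  carrier := {x | (∀ v, (x 0)⁻¹ * x v ∈ W) ∧ ∀ v w, x (v + w) = x v * (x 0)⁻¹ * x w}
  one_mem' := by
    refine ⟨fun v => ?_, fun v w => ?_⟩
    · simp
    · simp
  mul_mem' := by
    rintro x y ⟨hx1, hx2⟩ ⟨hy1, hy2⟩
    refine ⟨fun v => ?_, fun v w => ?_⟩
    · have h1 : ((x * y) 0)⁻¹ * (x * y) v =
          ((y 0)⁻¹ * ((x 0)⁻¹ * x v) * (y 0)⁻¹⁻¹) * ((y 0)⁻¹ * y v) := by
        simp only [Pi.mul_apply]
        group
      rw [h1]
      exact W.mul_mem (hW.conj_mem _ (hx1 v) _) (hy1 v)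
    · have h1 := hc _ (hx1 w) _ (hW.conj_mem _ (hy1 v) (y 0))
      have h2 : (x * y) v * ((x * y) 0)⁻¹ * (x * y) w =
          x v * ((y 0 * ((y 0)⁻¹ * y v) * (y 0)⁻¹) * ((x 0)⁻¹ * x w)) * y w := by
        simp only [Pi.mul_apply]
        group
      rw [h2, ← h1]
      simp only [Pi.mul_apply, hx2 v w, hy2 v w]
      group
  inv_mem' := by
    rintro x ⟨hx1, hx2⟩
    refine ⟨fun v => ?_, fun v w => ?_⟩
    · have h1 : (x⁻¹ 0)⁻¹ * x⁻¹ v = x 0 * ((x 0)⁻¹ * x v)⁻¹ * (x 0)⁻¹ := by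
        simp only [Pi.inv_apply]
        group
      rw [h1]
      exact hW.conj_mem _ (W.inv_mem (hx1 v)) _
    · have h1 := hc _ (W.inv_mem (hx1 w)) _ (W.inv_mem (hx1 v))
      have h2 : x⁻¹ v * (x⁻¹ 0)⁻¹ * x⁻¹ w =
          (((x 0)⁻¹ * x v)⁻¹ * ((x 0)⁻¹ * x w)⁻¹) * (x 0)⁻¹ := by
        simp only [Pi.inv_apply]
        group
      rw [h2, ← h1]
      simp only [Pi.inv_apply, hx2 v w]
      group

section

variable {G : Type} [Group G]

theorem kt_aux {A B : Subgroup G} [A.Normal] (hBA : ⁅B, B⁆ ≤ A) :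
    ∀ x ∈ B.map (QuotientGroup.mk' A), ∀ y ∈ B.map (QuotientGroup.mk' A), x * y = y * x := by
  rintro _ ⟨b, hb, rfl⟩ _ ⟨c, hc, rfl⟩
  rw [← map_mul, ← map_mul, QuotientGroup.mk'_eq_mk']
  refine ⟨⁅c⁻¹, b⁻¹⁆, hBA (Subgroup.commutator_mem_commutator (B.inv_mem hc) (B.inv_mem hb)), ?_⟩
  rw [commutatorElement_def]
  group

/-- The functions `V → G` which are affine modulo `A`, with differences in `B`. -/
def Kt (A B : Subgroup G) [A.Normal] (hB : B.Normal) (hBA : ⁅B, B⁆ ≤ A) (V : Type)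
    [AddCommGroup V] : Subgroup (V → G) :=
  (Aff (B.map (QuotientGroup.mk' A)) (hB.map _ (QuotientGroup.mk'_surjective A)) (kt_aux hBA)
    V).comap ((QuotientGroup.mk' A).compLeft V)

variable {A B : Subgroup G} [A.Normal] {hB : B.Normal} {hBA : ⁅B, B⁆ ≤ A} {V : Type}
  [AddCommGroup V]

/-- PROOF. Unfold; `QuotientGroup.eq`, `QuotientGroup.eq_one_iff`. -/
theorem mem_kt {x : V → G} : x ∈ Kt A B hB hBA V ↔
    (∀ v, ((x 0 : G) : G ⧸ A)⁻¹ * (x v : G ⧸ A) ∈ B.map (QuotientGroup.mk' A)) ∧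
      ∀ v w, ((x (v + w) : G) : G ⧸ A) = (x v : G ⧸ A) * ((x 0 : G) : G ⧸ A)⁻¹ * (x w : G ⧸ A) :=
  Iff.rfl

/-- PROOF. `mem_kt`. -/
theorem kt_const (g : G) : (fun _ => g) ∈ Kt A B hB hBA V := by
  rw [mem_kt]
  refine ⟨fun v => ?_, fun v w => ?_⟩
  · simp only [inv_mul_cancel]
    exact Subgroup.one_mem _
  · simp only [mul_inv_cancel, one_mul]

/-- PROOF. `mem_kt`; `(x v : G ⧸ A) = 1`. -/
theorem kt_of_mem {x : V → G} (hx : ∀ v, x v ∈ A) : x ∈ Kt A B hB hBA V := by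
  have h1 : ∀ v, ((x v : G) : G ⧸ A) = 1 := fun v => (QuotientGroup.eq_one_iff (x v)).2 (hx v)
  rw [mem_kt]
  refine ⟨fun v => ?_, fun v w => ?_⟩
  · rw [h1 0, h1 v, inv_one, one_mul]
    exact Subgroup.one_mem _
  · rw [h1, h1, h1, h1, inv_one, one_mul, one_mul]

/-- PROOF. `mem_kt`. Modulo `A` : `b ^ (v i).val * b ^ (w i).val = b ^ ((v i).val + (w i).val)` and
`((v + w) i).val ≡ (v i).val + (w i).val` modulo `p` (`ZMod.val_add`), `b ^ p ∈ A`. -/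
theorem kt_pow {p n : ℕ} [NeZero p] {b : G} (hb : b ∈ B) (hbp : b ^ p ∈ A) (i : Fin n) :
    (fun v : Fin n → ZMod p => b ^ (v i).val) ∈ Kt A B hB hBA (Fin n → ZMod p) := by
  have hb1 : ((b : G) : G ⧸ A) ^ p = 1 := by
    rw [← QuotientGroup.mk_pow, QuotientGroup.eq_one_iff]
    exact hbp
  have hmod : ∀ k : ℕ, ((b : G) : G ⧸ A) ^ (k % p) = ((b : G) : G ⧸ A) ^ k := by
    intro k
    conv_rhs => rw [← Nat.mod_add_div k p]
    rw [pow_add, pow_mul, hb1, one_pow, mul_one]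
  have h0 : ((0 : Fin n → ZMod p) i).val = 0 := by
    rw [Pi.zero_apply, ZMod.val_zero]
  rw [mem_kt]
  refine ⟨fun v => ?_, fun v w => ?_⟩
  · rw [h0, pow_zero, QuotientGroup.mk_one, inv_one, one_mul]
    exact Subgroup.mem_map_of_mem (QuotientGroup.mk' A) (B.pow_mem hb _)
  · rw [h0, pow_zero, QuotientGroup.mk_one, inv_one, mul_one, Pi.add_apply, ZMod.val_add,
      QuotientGroup.mk_pow, QuotientGroup.mk_pow, QuotientGroup.mk_pow, hmod, pow_add]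

end

end Knf

end MP799fdf
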