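import Pool.Agent.Lib.MP_799fdf_al.Knf.RigA

/-! # Rigidity of the components, part 2 -/

set_option autoImplicit false

open scoped commutatorElement

namespace MP799fdf

namespace Knf

open Inn

variable {G : Type} [Group G] {p : ℕ} {R H Z A B : Subgroup G} [Z.Normal] {h : G}
variable {V K V' K' P : Type} [Group K] [Group K'] [Group P]

/-- A homomorphism whose values on `L` lie in the range of an injective one factors on `L`. -/
theorem rigB_factor {P Q R' : Type} [Group P] [Group Q] [Group R'] (ψ : P →* Q) (ι : R' →* Q)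
    (hι : Function.Injective ι) {L : Subgroup P} (hL : L.map ψ ≤ ι.range) :
    ∃ α : L →* R', ∀ x : L, ι (α x) = ψ (x : P) := by
  have h1 : ∀ x : L, ψ (x : P) ∈ ι.range := fun x => hL (Subgroup.mem_map_of_mem ψ x.2)
  refine ⟨(MonoidHom.ofInjective hι).symm.toMonoidHom.comp
    ((ψ.comp L.subtype).codRestrict ι.range h1), fun x => ?_⟩
  have h2 := MonoidHom.apply_ofInjective_symm hι ⟨ψ (x : P), h1 x⟩
  exact h2

/-- PROOF. For `l ∈ L` let `ψ l = C.ι v (α l)` and `ψ' l = C'.ι v' (β l)`; `α β : L →* R`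
(`C.inj`; e.g. `MonoidHom.ofInjective`). `τ (α l)` and `β l` agree modulo `H`: apply `hσ` and `C.diag`,
`C'.diag`. So `τ ∘ α = β` (`S.perf_hom`, `perf_top hL.perf`). -/
theorem rigidB (S : Setup G p R H Z A B h) (C : Comp G R H Z h V K)
    (C' : Comp G R H Z h V' K') (ψ : P →* K) (ψ' : P →* K') {L N : Subgroup P} (hL : Loc L N)
    {v : V} {v' : V'} (hv : L.map ψ = (C.ι v).range)
    (hv' : L.map ψ' = (C'.ι v').range) (σ : (G ⧸ Z) ≃* (G ⧸ Z))
    (hσ : ∀ x : P, C'.π v' (ψ' x) = σ (C.π v (ψ x))) (τ : R ≃* R)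
    (hτ : ∀ r : R, (((τ r : R) : G) : G ⧸ Z) = σ ((r : G) : G ⧸ Z)) (l : P) (hl : l ∈ L) (r : R)
    (hr : ψ l = C.ι v r) : ψ' l = C'.ι v' (τ r) := by
  obtain ⟨α, hα⟩ := rigB_factor ψ (C.ι v) (C.inj v) (L := L) (le_of_eq hv)
  obtain ⟨β, hβ⟩ := rigB_factor ψ' (C'.ι v') (C'.inj v') (L := L) (le_of_eq hv')
  have key : (τ.toMonoidHom.comp α) = β := by
    refine S.perf_hom (perf_top hL.perf) _ _ fun x => ?_
    have h1 : (((τ.toMonoidHom.comp α) x : R) : G) = ((τ (α x) : R) : G) := rfl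
    rw [h1, hτ, ← C.diag v (α x), hα x, ← hσ, ← hβ x, C'.diag]
  have hr2 : r = α ⟨l, hl⟩ := by
    apply C.inj v
    rw [← hr, hα ⟨l, hl⟩]
  have h3 : β ⟨l, hl⟩ = τ (α ⟨l, hl⟩) := by
    rw [← key]
    rfl
  rw [hr2, ← h3, hβ ⟨l, hl⟩]

/-- PROOF. `rigidA` gives `σ` with `C'.π v' (ψ' x) = σ (C.π v (ψ x))`, `S.nt1` gives `τ`; `rigidB` for
`r ^ _`: `ψ' l = C'.ι v' (τ (r ^ a)) = C'.ι v' ((τ r) ^ a)` with `a = (Φ ..).val`; and
`(τ r) ^ a = r ^ a'` with `a' = (Φ fun i => σ (..)).val` by `hΦ` (`Subtype.ext`). -/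
theorem rigid_w [Finite P] [Finite G] (S : Setup G p R H Z A B h) (C : Comp G R H Z h V K)
    (C' : Comp G R H Z h V' K') (ψ : P →* K) (hψ : Function.Surjective ψ) (ψ' : P →* K')
    (hψ' : Function.Surjective ψ') {L N : Subgroup P} (hL : Loc L N)
    (hi : N.relIndex L = H.relIndex R) {v : V} {v' : V'} (hv : L.map ψ = (C.ι v).range)
    (hv' : L.map ψ' = (C'.ι v').range) {I : Type} (Φ : (I → G ⧸ Z) → ZMod p)
    (hΦ : Equi R h Φ) (y : I → P) (l : P) (hl : l ∈ L) (r : R) (hr : (r : G) = h)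
    (hlr : ψ l = C.ι v (r ^ (Φ fun i => C.π v (ψ (y i))).val)) :
    ψ' l = C'.ι v' (r ^ (Φ fun i => C'.π v' (ψ' (y i))).val) := by
  obtain ⟨σ, hσ⟩ := rigidA S C C' ψ hψ ψ' hψ' hL hi hv hv'
  obtain ⟨τ, hτ, -⟩ := S.nt1 σ
  have h1 := rigidB S C C' ψ ψ' hL hv hv' σ hσ τ hτ l hl _ hlr
  have h2 := hΦ σ τ hτ r hr (fun i => C.π v (ψ (y i)))
  have h3 : (fun i => C'.π v' (ψ' (y i))) = fun i => σ (C.π v (ψ (y i))) := by
    funext i
    exact hσ (y i)
  have h4 : τ (r ^ (Φ fun i => C.π v (ψ (y i))).val) =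
      r ^ (Φ fun i => C'.π v' (ψ' (y i))).val := by
    apply Subtype.ext
    rw [map_pow, Subgroup.coe_pow, Subgroup.coe_pow, h2, h3, hr]
  rw [h1, h4]

end Knf

end MP799fdf
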